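import Pool.Agent.helper52.OC.SpecA

/-!
# Project oc: (MP_afa6c5_al), row OUL: the union of a chain
-/

set_option autoImplicit false

open Filter

namespace OC

theorem OUL : OUL_stmt := by
  intro G _ c hc hne hOQ
  classical
  have hdir : DirectedOn (· ≤ ·) c := hc.directedOn
  have hmem : ∀ g : G, g ∈ sSup c ↔ ∃ N ∈ c, g ∈ N := fun g => Subgroup.mem_sSup_of_directedOn hne hdir
  have : Nonempty c := hne.to_subtype
  have : IsDirected (↥c) (· ≤ ·) := ⟨fun a b => by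
    obtain ⟨z, hz, h1, h2⟩ := hdir a.1 a.2 b.1 b.2
    exact ⟨⟨z, hz⟩, h1, h2⟩⟩
  let U : Ultrafilter (↥c) := Ultrafilter.of atTop
  have hU : ∀ i : c, ∀ᶠ j in (U : Filter (↥c)), i ≤ j := fun i =>
    (Ultrafilter.of_le (atTop : Filter (↥c))) (Ici_mem_atTop i)
  choose P hP using fun i : c => (hOQ i.1 i.2).2
  have hnor : ∀ i : c, (i.1).Normal := fun i => (hOQ i.1 i.2).1
  have hM : (sSup c).Normal := ⟨fun n hn g => by
    obtain ⟨N, hN, hnN⟩ := (hmem n).1 hn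
    exact (hmem _).2 ⟨N, hN, (hnor ⟨N, hN⟩).conj_mem n hnN g⟩⟩
  refine ⟨hM, {g | g ∉ sSup c ∧ ∀ᶠ i in (U : Filter (↥c)), g ∈ P i}, ?_, ?_, ?_, ?_⟩
  · exact fun a ha => ha.1
  · rintro a ⟨-, ha⟩ b ⟨-, hb⟩
    have hab : ∀ᶠ i in (U : Filter (↥c)), a * b ∈ P i := by
      filter_upwards [ha, hb] with i h1 h2 using (hP i).mul a h1 b h2
    refine ⟨fun h => ?_, hab⟩
    obtain ⟨N, hN, hnN⟩ := (hmem _).1 h
    obtain ⟨i, h1, h2⟩ := (hab.and (hU ⟨N, hN⟩)).exists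
    exact (hP i).dis _ h1 (h2 hnN)
  · rintro a ⟨ha, ha'⟩ g
    refine ⟨fun h => ha ?_, ?_⟩
    · have h1 := hM.conj_mem _ h g
      have h2 : g * (g⁻¹ * a * g) * g⁻¹ = a := by group
      rwa [h2] at h1
    · filter_upwards [ha'] with i h1 using (hP i).conj a h1 g
  · intro a ha
    have h1 : ∀ᶠ i in (U : Filter (↥c)), a ∈ P i ∨ a⁻¹ ∈ P i :=
      Eventually.of_forall fun i => (hP i).tri a fun h => ha ((hmem a).2 ⟨i.1, i.2, h⟩)
    rcases Ultrafilter.eventually_or.1 h1 with h2 | h2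
    · exact Or.inl ⟨ha, h2⟩
    · exact Or.inr ⟨fun h => ha (by simpa using (sSup c).inv_mem h), h2⟩

end OC
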